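import Pool.Agent.Y303.SK.XDefs
import Pool.Agent.Y708.SK.Conc

/-!
The kernel of the system of the modes, without completeness (copy of the proof of helper708).
-/

open Set Filter Topology MeasureTheory Metric

set_option autoImplicit false

namespace Pool.Agent.Y495.SKX

open Pool.Agent.Y5 (E3)
open Pool.Agent.Y5.D (Ix qd vf3 Init)
open Pool.Agent.Y6.N
open Pool.Agent.Y303.SK
open Pool.Agent.Y708.SK (cs_mono r_tendsto integrable_inner sq_ipr_le)

theorem t_CONC0 (hmm : S_MM) (hint : S_INT) (hf : S_FORM) (hh : S_HDY) : S_CONC0 := by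
  intro ν p Ψ H a κ h q q' δ r α ε lm L hν hpk hpar J w hbas
  obtain ⟨m1, m2, m3, m4, m5⟩ := hmm p Ψ H a κ h q q' _ δ r α ε lm L hpk hpar
  have hI := hint p Ψ H a κ h q q' _ δ r α ε lm L hpk hpar
  obtain ⟨f1, f2, f3⟩ := hf
  obtain ⟨ψ, hψ⟩ : ∃ ψ : ℕ → E3 → E3, ψ = psi p Ψ H r α ε := ⟨_, rfl⟩
  rw [← hψ] at m1 m2 m3 m4 m5 hI hbas ⊢
  obtain ⟨A, hA⟩ : ∃ A : ℕ → ℝ, A = Am a r α := ⟨_, rfl⟩
  rw [← hA] at m2 m3 hI
  have hr0 := hpar.r0
  have hκ := hpk.κ0
  have hrt : Tendsto r atTop (𝓝 0) :=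
    r_tendsto hr0 hpar.rstep hpk.q'0 (hpk.qq.trans hpk.q1)
  choose s ρ hρ hlin using hbas.lin
  have hN : ∀ j, ∃ N, ∀ n, N ≤ n → r n ≤ ρ j := fun j => by
    obtain ⟨N, hN⟩ := (hrt.eventually (gt_mem_nhds (hρ j))).exists_forall_of_atTop
    exact ⟨N, fun n hn => (hN n hn).le⟩
  choose g hg using hN
  obtain ⟨e, he⟩ : ∃ e : Ix J → E3 → E3, e = em ψ w := ⟨_, rfl⟩
  have hel : ∀ n, e (Sum.inl n) = ψ n := fun n => by rw [he]; rfl
  have her : ∀ j, e (Sum.inr j) = w j := fun j => by rw [he]; rfl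
  rw [← he]
  obtain ⟨S, hS⟩ : ∃ S : Ix J → ℝ, S = Sum.elim A s := ⟨_, rfl⟩
  obtain ⟨Θ, hΘ⟩ : ∃ Θ : Ix J → ℕ → ℝ,
    Θ = Sum.elim (fun n m => if m = n + 1 then ε n else 0) (fun _ _ => 0) := ⟨_, rfl⟩
  obtain ⟨lo, hlo⟩ : ∃ lo : Ix J → ℕ → Prop,
    lo = Sum.elim (fun n m => n < m) (fun j m => g j ≤ m) := ⟨_, rfl⟩
  have hlol : ∀ n m, n < m → lo (Sum.inl n) m := fun n m hnm => by rw [hlo]; exact hnm
  have hlor : ∀ j m, g j ≤ m → lo (Sum.inr j) m := fun j m hjm => by rw [hlo]; exact hjm
  have hSl : ∀ n, S (Sum.inl n) = A n := fun n => by rw [hS]; rfl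
  have hΘl : ∀ n m, Θ (Sum.inl n) m = if m = n + 1 then ε n else 0 := fun n m => by rw [hΘ]; rfl
  have hΘr : ∀ j m, Θ (Sum.inr j) m = 0 := fun j m => by rw [hΘ]; rfl
  have hlow : ∀ i m, lo i m → Low p (r m) H (e i) (S i) (Θ i m) := by
    intro i m him
    rw [hlo] at him
    rcases i with n | j
    · rw [hel, hSl, hΘl]
      have hnm : n < m := him
      split_ifs with h1
      · rw [h1]
        exact m2 n
      · exact m3 n m (by omega)
    · rw [her, hΘr]
      have hjm : g j ≤ m := him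
      intro x hx
      rw [zero_smul, add_zero, hS]
      exact hlin j x (ball_subset_ball (hg j m hjm) hx)
  have hcs : ∀ i, CS univ (e i) := by
    rintro (n | j)
    · rw [hel]
      exact cs_mono (m1 n) (subset_univ _)
    · rw [her]
      exact hbas.cs j
  have hcψ : ∀ n, CS univ (ψ n) := fun n => cs_mono (m1 n) (subset_univ _)
  -- interactions
  have k0 : ∀ i m, lo i m → ipr (e i) (ψ m) = 0 ∧ dirf (e i) (ψ m) = 0 := fun i m him =>
    have h1 := hI m (e i) (e i) _ _ _ _ (hcs i) (hcs i) (hlow i m him) (hlow i m him)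
    ⟨h1.1, h1.2.1⟩
  have k1 : ∀ i j m, lo i m → lo j m →
      adv (e i) (e j) (ψ m) = -(Θ i m * Θ j m * (A m * h)) := fun i j m him hjm =>
    (hI m (e i) (e j) _ _ _ _ (hcs i) (hcs j) (hlow i m him) (hlow j m hjm)).2.2.1
  have k2 : ∀ i j m, lo i m → lo j m → adv (ψ m) (e i) (e j) = 0 := fun i j m him hjm =>
    (hI m (e i) (e j) _ _ _ _ (hcs i) (hcs j) (hlow i m him) (hlow j m hjm)).2.2.2.1
  have k3 : ∀ i m, lo i m →
      adv (ψ m) (e i) (ψ m) = -(S i * (α m ^ 2 * κ - ε m ^ 2 * h)) := fun i m him =>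
    (hI m (e i) (e i) _ _ _ _ (hcs i) (hcs i) (hlow i m him) (hlow i m him)).2.2.2.2
  have k4 : ∀ i m, adv (e i) (ψ m) (ψ m) = 0 := fun i m => by
    have h1 := f1 (e i) (ψ m) (ψ m) (hcs i) (hcψ m) (hcψ m)
    linarith
  have c1 : ∀ i j n, i < n → j < n → adv (ψ i) (ψ j) (ψ n) =
      -((if n = i + 1 then ε i else 0) * (if n = j + 1 then ε j else 0) * (A n * h)) :=
    fun i j n hin hjn => by
      have := k1 (Sum.inl i) (Sum.inl j) n (hlol i n hin) (hlol j n hjn)
      rwa [hel, hel, hΘl, hΘl] at this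
  have c2 : ∀ i j n, i < n → j < n → adv (ψ n) (ψ i) (ψ j) = 0 := fun i j n hin hjn => by
      have := k2 (Sum.inl i) (Sum.inl j) n (hlol i n hin) (hlol j n hjn)
      rwa [hel, hel] at this
  have c3 : ∀ i n, i < n → adv (ψ n) (ψ i) (ψ n) = -(A i * (α n ^ 2 * κ - ε n ^ 2 * h)) :=
    fun i n hin => by
      have := k3 (Sum.inl i) n (hlol i n hin)
      rwa [hel, hSl] at this
  have c4 : ∀ i n, adv (ψ i) (ψ n) (ψ n) = 0 := fun i n => by
      have := k4 (Sum.inl i) n
      rwa [hel] at this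
  -- orthonormality
  have horth : ∀ i j, (i = j → ipr (e i) (e j) = 1) ∧ (i ≠ j → ipr (e i) (e j) = 0) := by
    rintro (m | i) (n | j)
    · rw [hel, hel]
      constructor
      · intro h1
        rw [Sum.inl.inj h1]
        exact m4 n
      · intro h1
        have h2 : m ≠ n := fun h3 => h1 (by rw [h3])
        rcases lt_or_gt_of_ne h2 with h3 | h3
        · have := (k0 (Sum.inl m) n (hlol m n h3)).1
          rwa [hel] at this
        · have := (k0 (Sum.inl n) m (hlol n m h3)).1
          rw [hel] at this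
          rw [(f2 _ _).1]
          exact this
    · rw [hel, her]
      exact ⟨fun h1 => absurd h1 Sum.inl_ne_inr, fun _ => hbas.perp m j⟩
    · rw [hel, her]
      exact ⟨fun h1 => absurd h1 Sum.inr_ne_inl, fun _ => by rw [(f2 _ _).1]; exact hbas.perp n i⟩
    · rw [her, her]
      exact ⟨fun h1 => (hbas.orth i j).1 (Sum.inr.inj h1),
        fun h1 => (hbas.orth i j).2 fun h2 => h1 (by rw [h2])⟩
  obtain ⟨g1, g2⟩ := f3 (Ix J) e hcs horth
  choose X hX1 hX2 using g2
  -- the parameters
  have hL : ∀ n, L n = κ * A n := by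
    intro n
    have h1 := hpar.Lr n
    have h2 : 0 < r n ^ 2 * √(r n) := mul_pos (pow_pos (hr0 n) 2) (Real.sqrt_pos.mpr (hr0 n))
    rw [hA, Am, ← mul_div_assoc, eq_div_iff h2.ne', h1]
    ring
  have hApos : ∀ n, 0 < A n := fun n => by
    rw [hA, Am]
    exact div_pos (mul_pos (hpar.α0 n) hpk.a0)
      (mul_pos (pow_pos (hr0 n) 2) (Real.sqrt_pos.mpr (hr0 n)))
  have hLC : ∀ n, L n * (ε n ^ 2 * (h / κ) * (L (n + 1) / L n)) = ε n * ε n * (A (n + 1) * h) := by
    intro n
    have h1 : L n ≠ 0 := by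
      rw [hL]
      exact (mul_pos hκ (hApos n)).ne'
    rw [show L n * (ε n ^ 2 * (h / κ) * (L (n + 1) / L n)) =
      ε n ^ 2 * (h / κ) * L (n + 1) * (L n / L n) by ring, div_self h1, mul_one, hL (n + 1)]
    field_simp
  have hLB : ∀ m n, L m * (α n ^ 2 - ε n ^ 2 * (h / κ)) = A m * (α n ^ 2 * κ - ε n ^ 2 * h) := by
    intro m n
    rw [hL]
    field_simp
  refine ⟨g, fun n => ν * dirf (ψ n) (ψ n), fun n => ν / 16 * (2 ^ n * r n ^ 2)⁻¹, X,
    fun i => ν * X i, ?_, ?_⟩
  · refine
      { anti := ?_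
        bil := ?_
        tab := ?_
        sepm := ?_
        sepo := ?_
        symm := ?_
        dlin := ?_
        dmain := ?_
        dsep := ?_
        coer := ?_
        ρ0 := ?_
        ρinf := ?_ }
    · intro k i j
      simp only [cc]
      rw [f1 (e i) (e j) (e k) (hcs i) (hcs j) (hcs k)]
    · intro i F z v
      exact hX1 i F z v
    · intro i j n
      simp only [cc]
      rw [hel, hel, hel, hLC, hLC, hLB, hLB]
      rcases lt_trichotomy i n with hin | hin | hin
      · rcases lt_trichotomy j n with hjn | hjn | hjn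
        · rw [c1 i j n hin hjn, if_neg (by omega : ¬ (i = n ∧ j < n)),
            if_neg (by omega : ¬ (i = j ∧ n < i)), if_neg (by omega : ¬ (i = n ∧ j = n + 1))]
          by_cases h1 : n = i + 1
          · by_cases h2 : n = j + 1
            · have h3 : i = j := by omega
              subst h3
              rw [if_pos h1, if_pos ⟨rfl, h1⟩, h1]
              ring
            · rw [if_neg h2, if_neg (by omega : ¬ (i = j ∧ n = i + 1))]
              ring
          · rw [if_neg h1, if_neg (by omega : ¬ (i = j ∧ n = i + 1))]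
            ring
        · rw [hjn, c4 i n, if_neg (by omega : ¬ (i = n ∧ n < n)),
            if_neg (by omega : ¬ (i = n ∧ n < i)), if_neg (by omega : ¬ (i = n ∧ n = i + 1)),
            if_neg (by omega : ¬ (i = n ∧ n = n + 1))]
          ring
        · rw [f1 _ _ _ (hcψ i) (hcψ j) (hcψ n), c1 i n j (hin.trans hjn) hjn,
            if_neg (by omega : ¬ (i = n ∧ j < n)), if_neg (by omega : ¬ (i = j ∧ n < i)),
            if_neg (by omega : ¬ (i = j ∧ n = i + 1)), if_neg (by omega : ¬ (i = n ∧ j = n + 1)),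
            if_neg (by omega : ¬ (j = i + 1))]
          ring
      · subst hin
        rcases lt_trichotomy j i with hjn | hjn | hjn
        · rw [c3 j i hjn, if_pos (⟨rfl, hjn⟩ : i = i ∧ j < i), if_neg (by omega : ¬ (i = j ∧ i < i)),
            if_neg (by omega : ¬ (i = j ∧ i = i + 1)), if_neg (by omega : ¬ (i = i ∧ j = i + 1))]
          ring
        · subst hjn
          rw [c4 j j, if_neg (by omega : ¬ (j = j ∧ j < j)),
            if_neg (by omega : ¬ (j = j ∧ j < j)), if_neg (by omega : ¬ (j = j ∧ j = j + 1)),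
            if_neg (by omega : ¬ (j = j ∧ j = j + 1))]
          ring
        · rw [f1 _ _ _ (hcψ i) (hcψ j) (hcψ i), c1 i i j hjn hjn,
            if_neg (by omega : ¬ (i = i ∧ j < i)), if_neg (by omega : ¬ (i = j ∧ i < i)),
            if_neg (by omega : ¬ (i = j ∧ i = i + 1))]
          by_cases h1 : j = i + 1
          · rw [if_pos h1, if_pos ⟨rfl, h1⟩, h1]
            ring
          · rw [if_neg h1, if_neg (by omega : ¬ (i = i ∧ j = i + 1))]
            ring
      · rcases lt_trichotomy j n with hjn | hjn | hjn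
        · rw [c2 j n i (hjn.trans hin) hin, if_neg (by omega : ¬ (i = n ∧ j < n)),
            if_neg (by omega : ¬ (i = j ∧ n < i)), if_neg (by omega : ¬ (i = j ∧ n = i + 1)),
            if_neg (by omega : ¬ (i = n ∧ j = n + 1))]
          ring
        · rw [hjn, c4 i n, if_neg (by omega : ¬ (i = n ∧ n < n)),
            if_neg (by omega : ¬ (i = n ∧ n < i)), if_neg (by omega : ¬ (i = n ∧ n = i + 1)),
            if_neg (by omega : ¬ (i = n ∧ n = n + 1))]
          ring
        · rcases lt_trichotomy i j with hij | hij | hij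
          · rw [f1 _ _ _ (hcψ i) (hcψ j) (hcψ n), c1 i n j hij hjn,
              if_neg (by omega : ¬ (i = n ∧ j < n)), if_neg (by omega : ¬ (i = j ∧ n < i)),
              if_neg (by omega : ¬ (i = j ∧ n = i + 1)), if_neg (by omega : ¬ (i = n ∧ j = n + 1)),
              if_neg (by omega : ¬ (j = n + 1))]
            ring
          · subst hij
            rw [f1 _ _ _ (hcψ i) (hcψ i) (hcψ n), c3 n i hin,
              if_neg (by omega : ¬ (i = n ∧ i < n)), if_pos (⟨rfl, hin⟩ : i = i ∧ n < i),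
              if_neg (by omega : ¬ (i = i ∧ n = i + 1)), if_neg (by omega : ¬ (i = n ∧ i = n + 1))]
            ring
          · rw [c2 j n i hij hin, if_neg (by omega : ¬ (i = n ∧ j < n)),
              if_neg (by omega : ¬ (i = j ∧ n < i)), if_neg (by omega : ¬ (i = j ∧ n = i + 1)),
              if_neg (by omega : ¬ (i = n ∧ j = n + 1))]
            ring
    · intro n i j hne hi hj hor
      by_contra hin
      apply hne
      simp only [cc]
      rw [neg_eq_zero, hel]
      rcases i with k | w₁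
      · have hkn : k ≠ n := fun h1 => hin (by rw [h1])
        rcases hor with ⟨w₂, hw₂⟩ | ⟨w₂, hw₂⟩
        · exact absurd hw₂ Sum.inl_ne_inr
        subst hw₂
        have hg2 := hj w₂ rfl
        rcases lt_or_gt_of_ne hkn with h1 | h1
        · rw [k1 _ _ n (hlol k n h1) (hlor w₂ n hg2), hΘr]
          ring
        · rw [hel, ← hel n]
          exact k2 _ _ k (hlor w₂ k (hg2.trans h1.le)) (hlol n k h1)
      · have hg1 := hi w₁ rfl
        rcases j with k | w₂
        · rcases lt_trichotomy k n with h1 | h1 | h1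
          · rw [k1 _ _ n (hlor w₁ n hg1) (hlol k n h1), hΘr]
            ring
          · rw [h1, hel]
            exact k4 _ n
          · rw [hel, f1 _ _ _ (hcs _) (hcψ k) (hcψ n), ← hel n,
              k1 _ _ k (hlor w₁ k (hg1.trans h1.le)) (hlol n k h1), hΘr]
            ring
        · rw [k1 _ _ n (hlor w₁ n hg1) (hlor w₂ n (hj w₂ rfl)), hΘr]
          ring
    · intro w₁ n i hw₁ hi1 hi2
      have hlo' : lo i n := by
        rcases i with k | w₂
        · exact hlol k n (hi1 k rfl)
        · exact hlor w₂ n (hi2 w₂ rfl)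
      simp only [cc]
      rw [hel]
      constructor
      · rw [k2 _ _ n hlo' (hlor w₁ n hw₁), neg_zero]
      · rw [f1 _ _ _ (hcs i) (hcψ n) (hcs _), k1 _ _ n hlo' (hlor w₁ n hw₁), hΘr]
        ring
    · intro i j
      simp only [DD]
      rw [(f2 _ _).2]
    · intro i F z
      have h1 : ∑ b ∈ F, DD ν e i b * z b = ν * ∑ b ∈ F, dirf (e i) (e b) * z b := by
        rw [Finset.mul_sum]
        exact Finset.sum_congr rfl fun b _ => by rw [DD]; ring
      rw [h1, abs_mul, abs_of_pos hν, mul_assoc]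
      exact mul_le_mul_of_nonneg_left (hX2 i F z) hν.le
    · intro m n
      simp only [DD]
      rw [hel, hel]
      split_ifs with h1
      · rw [h1]
      · rcases lt_or_gt_of_ne h1 with h3 | h3
        · have := (k0 (Sum.inl m) n (hlol m n h3)).2
          rw [hel] at this
          rw [this, mul_zero]
        · have := (k0 (Sum.inl n) m (hlol n m h3)).2
          rw [hel] at this
          rw [(f2 _ _).2, this, mul_zero]
    · intro n j hj
      simp only [DD]
      rw [(f2 _ _).2, hel, (k0 (Sum.inr j) n (hlor j n hj)).2, mul_zero]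
    · intro F z
      obtain ⟨b1, b2, b3, b4⟩ := g1 F z
      obtain ⟨v, hv⟩ : ∃ v : E3 → E3, v = fun x => ∑ i ∈ F, z i • e i x := ⟨_, rfl⟩
      rw [← hv] at b1 b2 b3 b4
      have hD : ∑ i ∈ F, ∑ j ∈ F, DD ν e i j * z i * z j = ν * dirf v v := by
        rw [b3, Finset.mul_sum]
        apply Finset.sum_congr rfl
        intro i _
        rw [Finset.mul_sum]
        apply Finset.sum_congr rfl
        intro j _
        rw [DD]
        ring
      rw [hD]
      have hterm : ∀ n, Sum.inl n ∈ F →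
          ν / 16 * (2 ^ n * r n ^ 2)⁻¹ * z (Sum.inl n) ^ 2 ≤ ν * dirf v v * (1 / 2) ^ (n + 1) := by
        intro n hn
        have h1 : z (Sum.inl n) = ipr v (ψ n) := by
          have h2 := b4 (ψ n) (hcψ n)
          rw [← hel n] at h2 ⊢
          rw [h2, Finset.sum_eq_single (Sum.inl n)]
          · rw [(horth _ _).1 rfl, mul_one]
          · intro j _ hj
            rw [(horth _ _).2 hj, mul_zero]
          · intro h3
            exact absurd hn h3
        have h2 := sq_ipr_le b1 (m1 n) (m4 n)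
        rw [← h1] at h2
        have h3 := h2.trans (hh v p (r n) b1 (hr0 n))
        have h4 := hr0 n
        have h5 : ν / 16 * (2 ^ n * r n ^ 2)⁻¹ * z (Sum.inl n) ^ 2 ≤
            ν / 16 * (2 ^ n * r n ^ 2)⁻¹ * (8 * r n ^ 2 * dirf v v) :=
          mul_le_mul_of_nonneg_left h3 (by positivity)
        refine h5.trans (le_of_eq ?_)
        have h6 : r n ≠ 0 := h4.ne'
        rw [one_div, inv_pow]
        field_simp
        ring
      have hdv : 0 ≤ dirf v v := by
        have h1 := hh v p (r 0) b1 (hr0 0)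
        have h2 : 0 ≤ ∫ x in ball p (r 0), ‖v x‖ ^ 2 := integral_nonneg fun x => by positivity
        have h3 := hr0 0
        have h4 : 0 ≤ 8 * r 0 ^ 2 * dirf v v := h2.trans h1
        exact nonneg_of_mul_nonneg_right h4 (by positivity)
      rw [← Finset.toLeft_disjSum_toRight (u := F), Finset.sum_disjSum]
      have hr : ∑ j ∈ F.toRight, rhI (fun n => ν / 16 * (2 ^ n * r n ^ 2)⁻¹) (Sum.inr j) *
          z (Sum.inr j) ^ 2 = 0 := by
        apply Finset.sum_eq_zero
        intro j _
        rw [rhI, zero_mul]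
      rw [hr, add_zero]
      have hs1 : ∑ n ∈ F.toLeft, rhI (J := J) (fun n => ν / 16 * (2 ^ n * r n ^ 2)⁻¹) (Sum.inl n) *
          z (Sum.inl n) ^ 2 ≤ ∑ n ∈ F.toLeft, ν * dirf v v * (1 / 2) ^ (n + 1) := by
        apply Finset.sum_le_sum
        intro n hn
        rw [rhI]
        exact hterm n (Finset.mem_toLeft.mp hn)
      refine hs1.trans ?_
      have hs2 : ∑ n ∈ F.toLeft, (1 / 2 : ℝ) ^ n ≤ 2 := by
        exact (summable_geometric_two.sum_le_tsum _ fun n _ => by positivity).trans_eq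
          tsum_geometric_two
      have hs3 : ∑ n ∈ F.toLeft, ν * dirf v v * (1 / 2) ^ (n + 1) =
          ν * dirf v v * (1 / 2 * ∑ n ∈ F.toLeft, (1 / 2 : ℝ) ^ n) := by
        rw [Finset.mul_sum, Finset.mul_sum]
        apply Finset.sum_congr rfl
        intro n _
        rw [pow_succ]
        ring
      rw [hs3]
      have hνd : 0 ≤ ν * dirf v v := mul_nonneg hν.le hdv
      nlinarith
    · intro n
      have := hr0 n
      positivity
    · exact Tendsto.const_mul_atTop (by positivity) hpar.inf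
  · apply hpar.seq
    intro n
    obtain ⟨h1, h2⟩ := m5 n
    refine ⟨mul_nonneg hν.le h1, ?_⟩
    rw [mul_assoc]
    exact mul_le_mul_of_nonneg_left h2 hν.le

end Pool.Agent.Y495.SKX
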